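import Pool.Agent.Lib.helper3.SRW

/-! Hitting times of simple random walk and the commute time bound. -/

namespace Pool.Agent.H.MP_cb142b_pr

open MeasureTheory ProbabilityTheory Finset Pool.Agent.Lib.helper3 Pool.Agent.Lib.helper3.SRW
open scoped ENNReal

variable {V : Type} [DecidableEq V] [Fintype V] (G : SimpleGraph V) [DecidableRel G.Adj]

local instance ms : MeasurableSpace V := ⊤

noncomputable def β (y : V) (n : ℕ) (v : V) : ℝ := if v = y then 0 else b G y n v

lemma β0 (y : V) (n : ℕ) (v : V) : 0 ≤ β G y n v := by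
  unfold β; split_ifs <;> simp [b_nonneg]

def A (x y : V) (t : ℕ) : Set (ℕ → V → V) := {ω | ∀ m < t, walk x ω m ≠ y}

omit [DecidableEq V] in
lemma mA (x y : V) (t : ℕ) : MeasurableSet (A x y t) := by
  simp only [A, Set.ofPred_forall]
  exact .iInter fun m => .iInter fun _ =>
    walk_meas x m (MeasurableSpace.measurableSet_top (s := {v | v ≠ y}))

variable (hG : ∀ v, 0 < G.degree v)
include hG

lemma step (y v : V) (n : ℕ) : ∫⁻ f, ENNReal.ofReal (β G y n (f v))
    ∂(Measure.infinitePi fun v => uniformOn (G.neighborSet v)) = ENNReal.ofReal (b G y (n + 1) v) := by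
  have := pr G hG
  have : (0 : ℝ) < G.degree v := by exact_mod_cast hG v
  rw [← lintegral_map (f := fun w => ENNReal.ofReal (β G y n w))
      measurable_from_top (measurable_pi_apply v), Measure.infinitePi_map_eval, uniformOn,
    ProbabilityTheory.cond, lintegral_smul_measure, ← G.coe_neighborFinset, lintegral_finset,
    Measure.count_apply_finset, b, ENNReal.ofReal_div_of_pos this,
    ENNReal.ofReal_sum_of_nonneg fun w _ => by split_ifs <;> simp [b_nonneg],
    ENNReal.div_eq_inv_mul]
  simp [β]

lemma PA (x y : V) (t : ℕ) : ∀ n, ∫⁻ ω, (A x y t).indicator 1 ω *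
    ENNReal.ofReal (β G y n (walk x ω t)) ∂P G = ENNReal.ofReal (β G y (n + t) x) := by
  have := pr G hG
  have : Nonempty (V → V) := ⟨id⟩
  induction t with
  | zero => simp [A, walk]
  | succ t ih =>
    intro n
    rw [← add_assoc, add_right_comm, ← ih]
    have h := MC.indep_past (Measure.infinitePi fun v => uniformOn (G.neighborSet v)) t
      (fun ω => (walk x ω t, (A x y (t + 1)).indicator (1 : (ℕ → V → V) → ℝ≥0∞) ω))
      ((walk_meas x t).prodMk (measurable_one.indicator (mA x y _))) (fun ω ω' h => by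
        have : ω ∈ A x y (t + 1) ↔ ω' ∈ A x y (t + 1) := forall₂_congr fun m hm => by
          rw [walk_congr x m ω ω' fun i hi => h i (by omega)]
        rw [walk_congr x t ω ω' h]
        by_cases k : ω' ∈ A x y (t + 1) <;> simp [Set.indicator, this, k])
      (fun z => z.1.2 * ENNReal.ofReal (β G y n (z.2 z.1.1)))
      (measurable_fst.snd.mul ((measurable_from_top (f := fun w =>
        ENNReal.ofReal (β G y n w))).comp
        ((measurable_from_prod_countable_right (f := fun z : V × (V → V) => z.2 z.1)
          fun v => measurable_pi_apply v).comp (measurable_fst.fst.prodMk measurable_snd))))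
    refine h.trans (lintegral_congr fun ω => ?_)
    simp only
    rw [lintegral_const_mul' _ _ (by by_cases k : ω ∈ A x y (t + 1) <;> simp [k]), step G hG]
    simp only [A, Set.indicator, Set.mem_ofPred_eq, Nat.forall_lt_succ_right, β]
    by_cases k : walk x ω t = y <;> simp [k]

lemma PA' (x y : V) (t : ℕ) : P G (A x y (t + 1)) = ENNReal.ofReal (β G y t x) := by
  rw [← zero_add t, ← PA G hG, zero_add, ← lintegral_indicator_one (mA x y _)]
  refine lintegral_congr fun ω => ?_
  simp only [A, Set.indicator, Set.mem_ofPred_eq, Nat.forall_lt_succ_right, β, b]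
  by_cases k : walk x ω t = y <;> simp [k]

lemma lapm {y : V} (hs : ∀ v, Summable fun n => β G y n v) (v : V) :
    ∑ w ∈ G.neighborFinset v, (∑' n, β G y n v - ∑' n, β G y n w) =
      G.degree v - if v = y then ∑ z, (G.degree z : ℝ) else 0 := by
  have h1 : ∀ v, v ≠ y →
      ∑ w ∈ G.neighborFinset v, (∑' n, β G y n v - ∑' n, β G y n w) = G.degree v := fun v hv => by
    have : (G.degree v : ℝ) ≠ 0 := by exact_mod_cast (hG v).ne'
    have e : ∀ n, β G y (n + 1) v = (∑ w ∈ G.neighborFinset v, β G y n w) / G.degree v := fun n => by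
      simp [β, hv, b]
    rw [sum_sub_distrib, (hs v).tsum_eq_zero_add]
    simp only [e, tsum_div_const, Summable.tsum_finsetSum fun w _ => hs w]
    simp [β, hv, b]
    field_simp
    ring
  split_ifs with hv
  · have := parts G univ (fun _ => 1) (fun v => ∑' n, β G y n v) fun _ _ => subset_univ _
    simp only [D, sub_self, zero_mul, sum_const_zero, one_mul] at this
    rw [← add_sum_erase _ _ (mem_univ v), sum_congr rfl fun w hw => h1 w (hv ▸ ne_of_mem_erase hw)]
      at this
    rw [← add_sum_erase _ _ (mem_univ v)]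
    linarith
  · simp [h1 v hv]

lemma commute {H : ℝ} (hs : ∀ y v, Summable fun n => β G y n v) (hH : ∀ y v, ∑' n, β G y n v ≤ H)
    (h : V → ℝ) (x y : V) : (∑ z, (G.degree z : ℝ)) * (h x - h y) ^ 2 ≤
      H * D {p ∈ univ ×ˢ univ | G.Adj p.1 p.2} h h := by
  set g := fun v => ∑' n, β G y n v - ∑' n, β G x n v
  have hM : 0 < ∑ z, (G.degree z : ℝ) := sum_pos (fun z _ => by exact_mod_cast hG z) ⟨x, mem_univ _⟩
  have e : ∀ f : V → ℝ, D {p ∈ univ ×ˢ univ | G.Adj p.1 p.2} f g =
      2 * ((∑ z, (G.degree z : ℝ)) * (f x - f y)) := fun f => by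
    refine Eq.trans (by convert rfl) ((parts G univ f g fun _ _ => subset_univ _).trans ?_)
    have : ∀ v, ∑ w ∈ G.neighborFinset v, (g v - g w) = (if v = x then ∑ z, (G.degree z : ℝ) else 0) -
        if v = y then ∑ z, (G.degree z : ℝ) else 0 := fun v => by
      have h1 := lapm G hG (hs y) v
      have h2 := lapm G hG (hs x) v
      simp only [g, sum_sub_distrib] at h1 h2 ⊢
      linarith
    simp only [this, mul_sub, sum_sub_distrib, mul_ite, mul_zero, sum_ite_eq', mem_univ, if_true]
    ring
  have h1 := sum_mul_sq_le_sq_mul_sq {p ∈ univ ×ˢ univ | G.Adj p.1 p.2} (fun p => h p.1 - h p.2)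
    fun p => g p.1 - g p.2
  have h2 : g x - g y ≤ 2 * H := by
    have := hH y x
    have := hH x y
    simp only [g, β, if_true, tsum_zero] at *
    linarith
  have h3 : 0 ≤ D {p ∈ univ ×ˢ univ | G.Adj p.1 p.2} h h := sum_nonneg fun _ _ => mul_self_nonneg _
  simp only [sq] at h1
  change D _ h g * D _ h g ≤ D _ h h * D _ g g at h1
  rw [e, e] at h1
  generalize ∑ z, (G.degree z : ℝ) = M at *
  refine le_of_mul_le_mul_left ?_ (show 0 < 4 * M by positivity)
  nlinarith [mul_le_mul_of_nonneg_left h2 (mul_nonneg h3 hM.le)]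

end Pool.Agent.H.MP_cb142b_pr
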